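import Pool.Agent.Helper23.MC.Goals3
import Pool.Agent.Helper27.LG.BG

/-!
# Project MC (MP_69be96_nt), packet MC-ZA: `ZZ` in progressions
-/

set_option autoImplicit false

open Finset Filter Topology

open scoped Classical

namespace Pool.Agent.Helper5.MC

open Pool.Agent.Helper23.MC

/-! ## Arithmetic -/

/-- `φ(e) ≤ 2 g φ(e/g)`. -/
theorem tot_le {e g : ℕ} (he : 1 ≤ e) (hg : g ∣ e) :
    Nat.totient e ≤ 2 * g * Nat.totient (e / g) := by
  obtain ⟨f, rfl⟩ := hg
  have hg0 : 0 < g := Nat.pos_of_ne_zero fun h => by subst h; omega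
  have hf0 : 0 < f := Nat.pos_of_ne_zero fun h => by subst h; omega
  rw [Nat.mul_div_cancel_left _ hg0]
  have h1 : Nat.totient (g * f) ≤ #{x ∈ Ico 0 (0 + g * f) | f.Coprime x} := by
    rw [Nat.totient_eq_card_coprime, Nat.zero_add]
    apply card_le_card
    intro x hx
    rw [mem_filter, mem_range] at hx
    rw [mem_filter, mem_Ico]
    exact ⟨⟨Nat.zero_le _, hx.1⟩, hx.2.coprime_mul_left⟩
  have h2 := Nat.Ico_filter_coprime_le 0 (g * f) hf0.ne'
  have h3 : g * f / f = g := Nat.mul_div_cancel _ hf0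
  rw [h3] at h2
  calc Nat.totient (g * f) ≤ Nat.totient f * (g + 1) := h1.trans h2
    _ ≤ Nat.totient f * (2 * g) := Nat.mul_le_mul_left _ (by omega)
    _ = 2 * g * Nat.totient f := by ring

theorem sum_harm {M : ℕ} : ∑ k ∈ Icc 1 M, 1 / (k : ℝ) ≤ 1 + Real.log M := by
  have h := harmonic_le_one_add_log M
  rw [harmonic_eq_sum_Icc] at h
  push_cast at h
  simpa [one_div] using h

/-- `∑_{m ≤ M} gcd(e, m)/m ≤ τ(e) (1 + log M)`. -/
theorem sum_gcd {e M : ℕ} (he : 1 ≤ e) :
    ∑ m ∈ Icc 1 M, (Nat.gcd e m : ℝ) / m ≤ (e.divisors.card : ℝ) * (1 + Real.log M) := by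
  have h1 : ∀ m ∈ Icc 1 M, (Nat.gcd e m : ℝ) / m ≤
      ∑ g ∈ e.divisors, if g ∣ m then (g : ℝ) / m else 0 := by
    intro m _
    have hmem : Nat.gcd e m ∈ e.divisors :=
      Nat.mem_divisors.2 ⟨Nat.gcd_dvd_left _ _, by omega⟩
    have h2 := Finset.single_le_sum (f := fun g : ℕ => if g ∣ m then (g : ℝ) / m else 0)
      (fun g _ => by
        show (0 : ℝ) ≤ if g ∣ m then (g : ℝ) / m else 0
        split_ifs
        · positivity
        · exact le_rfl) hmem
    rw [if_pos (Nat.gcd_dvd_right _ _)] at h2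
    exact h2
  refine (Finset.sum_le_sum h1).trans ?_
  rw [Finset.sum_comm]
  have h4 : ∀ g ∈ e.divisors, (∑ m ∈ Icc 1 M, if g ∣ m then (g : ℝ) / m else 0) ≤
      1 + Real.log M := by
    intro g hg
    have hg0 : 0 < g := Nat.pos_of_mem_divisors hg
    rw [← Finset.sum_filter]
    have h5 : ∀ m ∈ (Icc 1 M).filter (fun m => g ∣ m), (g : ℝ) / m = 1 / ((m / g : ℕ) : ℝ) := by
      intro m hm
      rw [mem_filter, mem_Icc] at hm
      obtain ⟨k, rfl⟩ := hm.2
      have hk0 : 0 < k := Nat.pos_of_ne_zero fun h => by subst h; omega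
      rw [Nat.mul_div_cancel_left _ hg0]
      push_cast
      have : (0 : ℝ) < g := by exact_mod_cast hg0
      have : (0 : ℝ) < k := by exact_mod_cast hk0
      field_simp
    rw [Finset.sum_congr rfl h5]
    have hinj : Set.InjOn (fun m : ℕ => m / g) ((Icc 1 M).filter (fun m => g ∣ m) : Set ℕ) := by
      intro a ha b hb hab
      rw [Finset.mem_coe, mem_filter] at ha hb
      have := Nat.div_mul_cancel ha.2
      have := Nat.div_mul_cancel hb.2
      simp only at hab
      rw [hab] at *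
      omega
    rw [← Finset.sum_image (f := fun k : ℕ => 1 / (k : ℝ)) hinj]
    refine (Finset.sum_le_sum_of_subset_of_nonneg ?_ fun k _ _ => by positivity).trans sum_harm
    intro k hk
    rw [mem_image] at hk
    obtain ⟨m, hm, rfl⟩ := hk
    rw [mem_filter, mem_Icc] at hm
    rw [mem_Icc]
    obtain ⟨k, rfl⟩ := hm.2
    have hk0 : 0 < k := Nat.pos_of_ne_zero fun h => by subst h; omega
    rw [Nat.mul_div_cancel_left _ hg0]
    refine ⟨hk0, le_trans ?_ hm.1.2⟩
    exact Nat.le_mul_of_pos_left _ hg0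
  calc _ ≤ ∑ _g ∈ e.divisors, (1 + Real.log M) := Finset.sum_le_sum h4
    _ = _ := by rw [sum_const, nsmul_eq_mul]

/-! ## The primes `> w` times a fixed `m` -/

/-- the `h ≤ Y` in the class of `h'` modulo `e` which are `m` times a prime `> w` -/
noncomputable def Um (Y w e h' m : ℕ) : Finset ℕ :=
  (Icc 1 Y).filter (fun h => h ≡ h' [MOD e] ∧ ∃ p, p.Prime ∧ w < p ∧ h = m * p)

theorem card_Um {Y w e h' m : ℕ} (he : 1 ≤ e) (hew : e ≤ w) (hm : 1 ≤ m) :
    ∃ b : ℕ, Nat.Coprime b (e / Nat.gcd e m) ∧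
      (Um Y w e h' m).card ≤ ((Icc 1 (Y / (m * (e / Nat.gcd e m)))).filter
        (fun t => (e / Nat.gcd e m * t + b).Prime)).card := by
  set e₁ := e / Nat.gcd e m with he₁
  have hgpos : 0 < Nat.gcd e m := Nat.gcd_pos_of_pos_left _ (by omega)
  have he₁pos : 0 < e₁ := Nat.div_pos (Nat.le_of_dvd (by omega) (Nat.gcd_dvd_left _ _)) hgpos
  have he₁e : e₁ ≤ e := Nat.div_le_self _ _
  rcases Finset.eq_empty_or_nonempty (Um Y w e h' m) with h0 | ⟨h₀, hh₀⟩
  · refine ⟨1, Nat.coprime_one_left _, ?_⟩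
    rw [h0, card_empty]
    exact Nat.zero_le _
  · unfold Um at hh₀
    rw [mem_filter] at hh₀
    obtain ⟨-, hc₀, p₀, hp₀, hwp₀, rfl⟩ := hh₀
    have hcop : Nat.Coprime (p₀ % e₁) e₁ := by
      have h1 : Nat.Coprime p₀ e₁ :=
        (Nat.Prime.coprime_iff_not_dvd hp₀).2 fun hd => by
          have := Nat.le_of_dvd he₁pos hd
          omega
      unfold Nat.Coprime at h1 ⊢
      rw [← h1]
      exact Nat.ModEq.gcd_eq (Nat.mod_modEq p₀ e₁)
    refine ⟨p₀ % e₁, hcop, ?_⟩
    have key : ∀ p : ℕ, m * p ≡ h' [MOD e] → p % e₁ = p₀ % e₁ := by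
      intro p hp
      have h1 : m * p ≡ m * p₀ [MOD e] := hp.trans hc₀.symm
      exact Nat.ModEq.cancel_left_div_gcd (by omega) h1
    have hval : ∀ p : ℕ, (m * p) / m = p := fun p => Nat.mul_div_cancel_left _ hm
    refine card_le_card_of_injOn (fun h => h / m / e₁) ?_ ?_
    · intro h hh
      unfold Um at hh
      rw [mem_coe, mem_filter, mem_Icc] at hh
      obtain ⟨⟨-, hY⟩, hc, p, hp, hwp, rfl⟩ := hh
      rw [mem_coe, mem_filter, mem_Icc]
      simp only [hval]
      refine ⟨⟨Nat.div_pos (by omega) he₁pos, ?_⟩, ?_⟩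
      · rw [← Nat.div_div_eq_div_mul]
        apply Nat.div_le_div_right
        rw [Nat.le_div_iff_mul_le hm, mul_comm]
        exact hY
      · rw [← key p hc, Nat.div_add_mod]
        exact hp
    · intro h₁ hh₁ h₂ hh₂ heq
      unfold Um at hh₁ hh₂
      rw [mem_coe, mem_filter] at hh₁ hh₂
      obtain ⟨-, hc₁, p₁, -, -, rfl⟩ := hh₁
      obtain ⟨-, hc₂, p₂, -, -, rfl⟩ := hh₂
      simp only [hval] at heq
      have e1 := key p₁ hc₁
      have e2 := key p₂ hc₂
      have : p₁ = p₂ := by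
        rw [← Nat.div_add_mod p₁ e₁, ← Nat.div_add_mod p₂ e₁, heq, e1, e2]
      rw [this]

/-! ## Size conditions -/

/-- `(√w + 1) (log w)² ≤ w` for `w ≥ 2^28`. -/
theorem size {w : ℝ} (hw : 2 ^ 28 ≤ w) : (√w + 1) * Real.log w ^ 2 ≤ w := by
  have hw0 : 0 < w := lt_of_lt_of_le (by norm_num) hw
  set u : ℝ := w ^ ((1 : ℝ) / 8) with hu
  have hu0 : 0 < u := Real.rpow_pos_of_pos hw0 _
  have hu8 : u ^ 8 = w := by
    rw [hu, ← Real.rpow_natCast, ← Real.rpow_mul hw0.le]
    norm_num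
  have hlog : Real.log w ≤ 8 * u := by
    have h1 := Real.log_le_rpow_div hw0.le (show (0 : ℝ) < 1 / 8 by norm_num)
    rw [← hu] at h1
    linarith [show u / (1 / 8) = 8 * u by ring]
  have hlog0 : 0 ≤ Real.log w := Real.log_nonneg (by linarith [show (1 : ℝ) ≤ 2 ^ 28 by norm_num])
  have hu2 : 128 ≤ u ^ 2 := by
    by_contra h
    push Not at h
    have h2 : (u ^ 2) ^ 4 < 128 ^ 4 := pow_lt_pow_left₀ h (by positivity) (by norm_num)
    have h3 : (u ^ 2) ^ 4 = w := by rw [← hu8]; ring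
    rw [h3] at h2
    norm_num at h2 hw
    linarith
  have hsq : √w = u ^ 4 := by
    rw [← hu8, show u ^ 8 = (u ^ 4) ^ 2 by ring, Real.sqrt_sq (by positivity)]
  have hu4 : 1 ≤ u ^ 4 := by nlinarith
  have hl2 : Real.log w ^ 2 ≤ 64 * u ^ 2 := by nlinarith
  calc (√w + 1) * Real.log w ^ 2 ≤ (2 * u ^ 4) * (64 * u ^ 2) := by
        rw [hsq]
        apply mul_le_mul (by linarith) hl2 (by positivity) (by positivity)
    _ = 128 * u ^ 6 := by ring
    _ ≤ u ^ 2 * u ^ 6 := by
        apply mul_le_mul_of_nonneg_right hu2 (by positivity)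
    _ = w := by rw [← hu8]; ring

theorem log_big {w : ℝ} (hw : 2 ^ 28 ≤ w) : 1 ≤ Real.log (Real.log w) ∧ 19 ≤ Real.log w := by
  have h1 : (19 : ℝ) ≤ Real.log w := by
    have h2 : Real.log ((2 : ℝ) ^ 28) ≤ Real.log w := Real.log_le_log (by positivity) hw
    rw [Real.log_pow] at h2
    have h3 := Real.log_two_gt_d9
    push_cast at h2
    linarith
  refine ⟨?_, h1⟩
  rw [Real.le_log_iff_exp_le (by linarith)]
  have := Real.exp_one_lt_d9
  linarith

/-- the count for one `m` -/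
theorem bound_Um {CB : ℝ} (hCB : 0 < CB)
    (hBG : ∀ d b N : ℕ, 1 ≤ d → 2 ≤ N → Nat.Coprime b d →
      (((Icc 1 N).filter (fun t => (d * t + b).Prime)).card : ℝ)
        ≤ CB * (N / Real.log N) * (d / (Nat.totient d : ℝ)))
    {Y w e h' m : ℕ} (hw : 2 ^ 28 ≤ w) (he : 1 ≤ e) (hel : (e : ℝ) ≤ Real.log w ^ 2)
    (hm : 1 ≤ m) (hmY : m * w ≤ Y) :
    ((Um Y w e h' m).card : ℝ) ≤
      4 * CB * (Y / (Nat.totient e * Real.log w)) * ((Nat.gcd e m : ℝ) / m) := by
  have hwR : (2 : ℝ) ^ 28 ≤ (w : ℝ) := by exact_mod_cast hw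
  have hw0 : (0 : ℝ) < w := lt_of_lt_of_le (by norm_num) hwR
  have hsize := size hwR
  obtain ⟨-, hlog⟩ := log_big hwR
  have hlog0 : 0 < Real.log w := by linarith
  have hlog2 : 0 < Real.log w ^ 2 := by positivity
  have hsq0 : 0 < √(w : ℝ) := Real.sqrt_pos.2 hw0
  have hew : e ≤ w := by
    have h1 : (e : ℝ) ≤ w := by nlinarith
    exact_mod_cast h1
  obtain ⟨b, hb, hcard⟩ := card_Um (Y := Y) (h' := h') he hew hm
  set g := Nat.gcd e m with hg
  set e₁ := e / g with he₁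
  have hgpos : 0 < g := Nat.gcd_pos_of_pos_left _ (by omega)
  have hgdvd : g ∣ e := Nat.gcd_dvd_left _ _
  have he₁pos : 0 < e₁ := Nat.div_pos (Nat.le_of_dvd (by omega) hgdvd) hgpos
  have he₁e : e₁ ≤ e := Nat.div_le_self _ _
  set N := Y / (m * e₁) with hN
  have hmR : (0 : ℝ) < m := by exact_mod_cast hm
  have he₁R : (0 : ℝ) < e₁ := by exact_mod_cast he₁pos
  have he₁l : (e₁ : ℝ) ≤ Real.log w ^ 2 := le_trans (by exact_mod_cast he₁e) hel
  -- lower bound for N
  have hNlow : √(w : ℝ) ≤ N := by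
    have h1 : (Y : ℝ) / ((m * e₁ : ℕ) : ℝ) < N + 1 := by
      have h2 := Nat.lt_div_mul_add (a := Y) (b := m * e₁) (Nat.mul_pos hm he₁pos)
      rw [div_lt_iff₀ (by exact_mod_cast Nat.mul_pos hm he₁pos)]
      have h3 : Y < (N + 1) * (m * e₁) := by
        rw [hN]
        nlinarith
      exact_mod_cast h3
    have h4 : (w : ℝ) / Real.log w ^ 2 ≤ (Y : ℝ) / ((m * e₁ : ℕ) : ℝ) := by
      rw [div_le_div_iff₀ hlog2 (by exact_mod_cast Nat.mul_pos hm he₁pos)]
      have h5 : (m : ℝ) * w ≤ Y := by exact_mod_cast hmY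
      push_cast
      calc (w : ℝ) * (m * e₁) = (m * w) * e₁ := by ring
        _ ≤ Y * Real.log w ^ 2 := mul_le_mul h5 he₁l he₁R.le (by positivity)
    have h6 : √(w : ℝ) + 1 ≤ (w : ℝ) / Real.log w ^ 2 := by
      rw [le_div_iff₀ hlog2]
      exact hsize
    linarith
  have hsq2 : (2 : ℝ) ≤ √(w : ℝ) := by
    apply Real.le_sqrt_of_sq_le
    linarith
  have hN2 : 2 ≤ N := by
    have : (2 : ℝ) ≤ N := hsq2.trans hNlow
    exact_mod_cast this
  have hNup : (N : ℝ) ≤ Y / (m * e₁) := by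
    have := Nat.cast_div_le (α := ℝ) (m := Y) (n := m * e₁)
    push_cast at this
    exact this
  have hlogN : Real.log w / 2 ≤ Real.log N := by
    have h1 := Real.log_le_log hsq0 hNlow
    rw [Real.log_sqrt hw0.le] at h1
    exact h1
  have hBG' := hBG e₁ b N he₁pos hN2 hb
  have htot : (Nat.totient e : ℝ) ≤ 2 * g * Nat.totient e₁ := by
    exact_mod_cast tot_le he hgdvd
  have hφe : (0 : ℝ) < Nat.totient e := by
    exact_mod_cast Nat.totient_pos.2 (show 0 < e by omega)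
  have hφe₁ : (0 : ℝ) < Nat.totient e₁ := by exact_mod_cast Nat.totient_pos.2 he₁pos
  have hgR : (0 : ℝ) < g := by exact_mod_cast hgpos
  have hY0 : (0 : ℝ) ≤ Y := Nat.cast_nonneg _
  calc ((Um Y w e h' m).card : ℝ)
      ≤ (((Icc 1 N).filter (fun t => (e₁ * t + b).Prime)).card : ℝ) := by exact_mod_cast hcard
    _ ≤ CB * (N / Real.log N) * (e₁ / (Nat.totient e₁ : ℝ)) := hBG'
    _ ≤ CB * ((Y / (m * e₁)) / (Real.log w / 2)) * (e₁ / (Nat.totient e₁ : ℝ)) := by
        gcongr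
    _ = 2 * CB * (Y / (m * Real.log w)) * (1 / (Nat.totient e₁ : ℝ)) := by
        field_simp
    _ ≤ 2 * CB * (Y / (m * Real.log w)) * (2 * g / (Nat.totient e : ℝ)) := by
        apply mul_le_mul_of_nonneg_left _ (by positivity)
        rw [div_le_div_iff₀ hφe₁ hφe]
        linarith
    _ = 4 * CB * (Y / (Nat.totient e * Real.log w)) * ((g : ℝ) / m) := by
        field_simp
        ring

theorem za : StmtZA := by
  obtain ⟨CB, hCB, hBG⟩ := Pool.Agent.Helper27.LG.bg
  refine ⟨max 1 (20 * CB), le_max_left _ _, 2 ^ 28, ?_⟩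
  intro w Y t e h' hw hwY hYw ht2 htw he hel Bd hBd
  have hwR : (2 : ℝ) ^ 28 ≤ (w : ℝ) := by exact_mod_cast hw
  have hw0 : (0 : ℝ) < w := lt_of_lt_of_le (by norm_num) hwR
  have hwpos : 0 < w := by exact_mod_cast hw0
  obtain ⟨hLL, hlog⟩ := log_big hwR
  have hlog0 : 0 < Real.log w := by linarith
  set M := Y / w with hM
  have hM1 : 1 ≤ M := Nat.div_pos hwY hwpos
  set A : Finset ℕ := Bd.biUnion (fun p => (Icc 1 Y).filter (fun h => p ∣ h)) with hA
  set S : Finset ℕ := (Icc 1 Y).filter (fun h : ℕ => ∀ p, p.Prime → p ∣ h → p ≤ t) with hS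
  set U : Finset ℕ := (Icc 1 M).biUnion (fun m => Um Y w e h' m) with hU
  have hsub : (ZZ Y t w Bd).filter (fun h => h ≡ h' [MOD e]) ⊆ U ∪ S ∪ A := by
    intro h hh
    rw [mem_filter] at hh
    obtain ⟨hz, hc⟩ := hh
    unfold ZZ at hz
    rw [mem_filter] at hz
    obtain ⟨hI, hz⟩ := hz
    rw [mem_union, mem_union]
    by_cases hs : ∀ p, p.Prime → p ∣ h → p ≤ t
    · left; right
      rw [hS, mem_filter]
      exact ⟨hI, hs⟩
    · push Not at hs
      obtain ⟨p, hp, hph, htp⟩ := hs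
      by_cases hpw : p ≤ w
      · right
        have hpB : p ∈ Bd := by
          by_contra hn
          exact hz p hp htp hpw hn hph
        rw [hA, mem_biUnion]
        exact ⟨p, hpB, mem_filter.2 ⟨hI, hph⟩⟩
      · left; left
        obtain ⟨m, rfl⟩ := hph
        rw [mem_Icc] at hI
        have hm0 : 0 < m := Nat.pos_of_ne_zero fun h0 => by subst h0; omega
        rw [hU, mem_biUnion]
        refine ⟨m, mem_Icc.2 ⟨hm0, ?_⟩, ?_⟩
        · rw [hM, Nat.le_div_iff_mul_le hwpos]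
          calc m * w ≤ m * p := Nat.mul_le_mul_left _ (by omega)
            _ = p * m := mul_comm _ _
            _ ≤ Y := hI.2
        · unfold Um
          rw [mem_filter]
          exact ⟨mem_Icc.2 hI, hc, p, hp, by omega, mul_comm _ _⟩
  have hAcard : (A.card : ℝ) ≤ Bd.card * (Y / t) := by
    have h1 : A.card ≤ ∑ p ∈ Bd, ((Icc 1 Y).filter (fun h => p ∣ h)).card := card_biUnion_le
    have h2 : ∀ p ∈ Bd, ((((Icc 1 Y).filter (fun h => p ∣ h)).card : ℕ) : ℝ) ≤ Y / t := by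
      intro p hp
      have h3 : (Icc 1 Y).filter (fun h => p ∣ h) = (Ioc 0 Y).filter (fun h => p ∣ h) := by
        congr 1
      rw [h3, Nat.Ioc_filter_dvd_card_eq_div]
      have h4 : (t : ℝ) < p := by exact_mod_cast hBd p hp
      have h5 : (0 : ℝ) < t := by
        have : 0 < t := by omega
        exact_mod_cast this
      calc ((Y / p : ℕ) : ℝ) ≤ (Y : ℝ) / p := Nat.cast_div_le
        _ ≤ Y / t := by
            apply div_le_div_of_nonneg_left (Nat.cast_nonneg _) h5 h4.le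
    calc (A.card : ℝ) ≤ ∑ p ∈ Bd, ((((Icc 1 Y).filter (fun h => p ∣ h)).card : ℕ) : ℝ) := by
          exact_mod_cast h1
      _ ≤ ∑ _p ∈ Bd, (Y : ℝ) / t := Finset.sum_le_sum h2
      _ = Bd.card * (Y / t) := by rw [sum_const, nsmul_eq_mul]
  have hφe : (0 : ℝ) < Nat.totient e := by
    exact_mod_cast Nat.totient_pos.2 (show 0 < e by omega)
  have hUcard : (U.card : ℝ) ≤ 20 * CB * ((e.divisors.card : ℝ) / (Nat.totient e : ℝ) * Y *
      Real.log (Real.log w) / Real.log w) := by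
    have h1 : U.card ≤ ∑ m ∈ Icc 1 M, (Um Y w e h' m).card := card_biUnion_le
    have h2 : ∀ m ∈ Icc 1 M, ((Um Y w e h' m).card : ℝ) ≤
        4 * CB * (Y / (Nat.totient e * Real.log w)) * ((Nat.gcd e m : ℝ) / m) := by
      intro m hm
      rw [mem_Icc] at hm
      refine bound_Um hCB hBG hw he hel hm.1 ?_
      rw [hM, Nat.le_div_iff_mul_le hwpos] at hm
      exact hm.2
    have hlogM : Real.log M ≤ 4 * Real.log (Real.log w) := by
      have h3 : (M : ℝ) ≤ Real.log w ^ 4 := by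
        have h4 : (M : ℝ) ≤ Y / w := Nat.cast_div_le
        refine h4.trans ?_
        rw [div_le_iff₀ hw0, mul_comm]
        exact hYw
      have h5 : (0 : ℝ) < M := by exact_mod_cast hM1
      have h6 := Real.log_le_log h5 h3
      rw [Real.log_pow] at h6
      exact_mod_cast h6
    have h7 := sum_gcd (M := M) he
    have hτ : (0 : ℝ) ≤ e.divisors.card := Nat.cast_nonneg _
    calc (U.card : ℝ) ≤ ∑ m ∈ Icc 1 M, ((Um Y w e h' m).card : ℝ) := by exact_mod_cast h1
      _ ≤ ∑ m ∈ Icc 1 M,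
          4 * CB * (Y / (Nat.totient e * Real.log w)) * ((Nat.gcd e m : ℝ) / m) :=
          Finset.sum_le_sum h2
      _ = 4 * CB * (Y / (Nat.totient e * Real.log w)) *
          ∑ m ∈ Icc 1 M, (Nat.gcd e m : ℝ) / m := by rw [Finset.mul_sum]
      _ ≤ 4 * CB * (Y / (Nat.totient e * Real.log w)) *
          ((e.divisors.card : ℝ) * (5 * Real.log (Real.log w))) := by
          apply mul_le_mul_of_nonneg_left _ (by positivity)
          refine h7.trans (mul_le_mul_of_nonneg_left ?_ hτ)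
          linarith
      _ = _ := by
          field_simp
          ring
  have hcard := (card_le_card hsub).trans
    ((card_union_le _ _).trans (Nat.add_le_add_right (card_union_le _ _) _))
  have hcardR : (((ZZ Y t w Bd).filter (fun h => h ≡ h' [MOD e])).card : ℝ) ≤
      U.card + S.card + A.card := by exact_mod_cast hcard
  have hpos : 0 ≤ (e.divisors.card : ℝ) / (Nat.totient e : ℝ) * Y *
      Real.log (Real.log w) / Real.log w := by positivity
  have hC : 20 * CB * ((e.divisors.card : ℝ) / (Nat.totient e : ℝ) * Y *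
      Real.log (Real.log w) / Real.log w) ≤ max 1 (20 * CB) *
      ((e.divisors.card : ℝ) / (Nat.totient e : ℝ) * Y *
      Real.log (Real.log w) / Real.log w) :=
    mul_le_mul_of_nonneg_right (le_max_right _ _) hpos
  linarith

end Pool.Agent.Helper5.MC
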